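import Pool.Agent.H10.GM.Targets2

/-!
# The excluded grid theorem: row GMI (grid minors)
-/

set_option autoImplicit false

namespace Pool.Agent.H69.GM

open Pool.Agent.H55.GW Pool.Agent.H10.GM Pool.Agent.H8.MC

/-- walks inside a set give reachability in the induced graph -/
private theorem reach {V : Type} (G : SimpleGraph V) {S : Set V} {x y : V} (hx : x ∈ S)
    (h : RIn G.Adj S x y) (hy : y ∈ S) : (G.induce S).Reachable ⟨x, hx⟩ ⟨y, hy⟩ := by
  obtain ⟨h0, h1⟩ := h
  induction h1 with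
  | refl => exact SimpleGraph.Reachable.refl _
  | @tail b c h2 h3 ih =>
    have hb : b ∈ S := RIn.right_mem (D := G.Adj) (x := x) ⟨h0, h2⟩
    refine (ih hb).trans (SimpleGraph.Adj.reachable ?_)
    exact SimpleGraph.comap_adj.2 h3.1

private theorem conn {V : Type} (G : SimpleGraph V) {S : Set V} (h : Cn G.Adj S) :
    (G.induce S).Connected := by
  obtain ⟨⟨x, hx⟩, h2⟩ := h
  rw [SimpleGraph.connected_iff]
  exact ⟨fun a b => reach G a.2 (h2 a a.2 b b.2) b.2, ⟨⟨x, hx⟩⟩⟩

theorem pf_GMI : T_GMI := by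
  rintro V G r ⟨B, h1, h2, h3, h4⟩
  have hsy : Sy G.Adj := fun u v h => h.symm
  refine ⟨fun p => B p.1 p.2, fun p => conn G (h1 p.1 p.1.2 p.2 p.2.2), ?_, ?_⟩
  · rintro p q hpq
    apply h2 p.1 p.1.2 p.2 p.2.2 q.1 q.1.2 q.2 q.2.2
    by_contra hc
    push Not at hc
    exact hpq (Prod.ext (Fin.ext hc.1) (Fin.ext hc.2))
  · rintro ⟨⟨a, ha⟩, ⟨b, hb⟩⟩ ⟨⟨a', ha'⟩, ⟨b', hb'⟩⟩ hpq
    rcases hpq with ⟨h5, h6⟩ | ⟨h5, h6⟩
    · have h5' : a = a' := congrArg Fin.val h5
      subst h5'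
      rcases h6 with h6 | h6
      · have h7 : b + 1 = b' := h6
        subst h7
        exact h4 a b ha hb'
      · have h7 : b' + 1 = b := h6
        subst h7
        exact Tch.sy hsy (h4 a b' ha hb)
    · have h5' : b = b' := congrArg Fin.val h5
      subst h5'
      rcases h6 with h6 | h6
      · have h7 : a + 1 = a' := h6
        subst h7
        exact h3 a b ha' hb
      · have h7 : a' + 1 = a := h6
        subst h7
        exact Tch.sy hsy (h3 a' b ha hb)

end Pool.Agent.H69.GM
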