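import Pool.Agent.H10.GM.Targets1

/-!
# The excluded grid theorem: row GRP (many disjoint sets each of which misses few of the paths)
-/

set_option autoImplicit false

namespace Pool.Agent.H69.GM

open Pool.Agent.H55.GW Pool.Agent.H10.GM

/-- a set which misses few paths meets all paths of a group -/
private theorem group {κ N : ℕ} (Q : Fin (κ * N) → Prop)
    (h : {j | ¬ Q j}.ncard < κ) : ∃ g : Fin κ, ∀ n : Fin N, Q (finProdFinEquiv (g, n)) := by
  by_contra hc
  push Not at hc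
  choose f hf using hc
  have hinj : Function.Injective (fun g : Fin κ => (finProdFinEquiv (g, f g) : Fin (κ * N))) := by
    intro a b hab
    have h1 := finProdFinEquiv.injective hab
    exact (Prod.mk.inj h1).1
  have h2 : Set.range (fun g : Fin κ => (finProdFinEquiv (g, f g) : Fin (κ * N))) ⊆
      {j | ¬ Q j} := by
    rintro _ ⟨g, rfl⟩
    exact hf g
  have h3 := Set.ncard_le_ncard h2 (Set.toFinite _)
  rw [Set.ncard_range_of_injective hinj, Nat.card_eq_fintype_card, Fintype.card_fin] at h3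
  omega

theorem pf_GRP (hPAT : T_PAT) (hSEG : T_SEG) (hCRC : T_CRC) : T_GRP := by
  classical
  intro r κ hκ
  obtain ⟨N, d, hN, hd, hPAT⟩ := hPAT r
  refine ⟨κ * N, κ * (d * (d * (κ * N))), Nat.le_mul_of_pos_right κ hN, ?_⟩
  intro V _ E hE I _ Vt hcn hdj A B hL
  obtain ⟨P, len, hP, hcr⟩ := hCRC V E hE I Vt hcn hdj (κ * N) A B hL
  refine ⟨P, len, hP, fun I' hI' hmiss => ?_⟩
  have h1 : ∀ i : I, ∃ g : Fin κ, i ∈ I' →
      ∀ n : Fin N, ∃ t ≤ len (finProdFinEquiv (g, n)), P (finProdFinEquiv (g, n)) t ∈ Vt i := by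
    intro i
    by_cases hi : i ∈ I'
    · have h2 := hmiss i hi
      have h3 : {j : Fin (κ * N) | ∀ t ≤ len j, P j t ∉ Vt i} =
          {j | ¬ ∃ t ≤ len j, P j t ∈ Vt i} := by
        ext j
        simp only [Set.mem_setOf_eq, not_exists, not_and]
      rw [h3] at h2
      obtain ⟨g, hg⟩ := group (fun j => ∃ t ≤ len j, P j t ∈ Vt i) h2
      exact ⟨g, fun _ => hg⟩
    · exact ⟨⟨0, hκ⟩, fun h => absurd h hi⟩
  choose gi hgi using h1
  haveI : Nonempty (Fin κ) := ⟨⟨0, hκ⟩⟩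
  obtain ⟨g, -, hg⟩ := Finset.exists_le_card_fiber_of_mul_le_card_of_maps_to
    (s := I') (t := (Finset.univ : Finset (Fin κ))) (f := gi) (n := d * (d * (κ * N)))
    (fun i _ => Finset.mem_univ _) Finset.univ_nonempty (by
      rw [Finset.card_univ, Fintype.card_fin]
      exact hI')
  set J : Set (Fin (κ * N)) := Set.range (fun n : Fin N => finProdFinEquiv (g, n)) with hJ
  obtain ⟨v, hv1, hv2⟩ := hcr d J (I'.filter fun i => gi i = g) hd
    ⟨_, ⟨⟨0, hN⟩, rfl⟩⟩ hg (by
      rintro i hi _ ⟨n, rfl⟩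
      rw [Finset.mem_filter] at hi
      have := hgi i hi.1 n
      rw [hi.2] at this
      exact this)
  have hmem : ∀ n < d, ∀ j : Fin N, ∃ t ≤ len (finProdFinEquiv (g, j)),
      P (finProdFinEquiv (g, j)) t ∈ Vt (v n) := by
    intro n hn j
    have h2 := hv1 n hn
    rw [Finset.mem_filter] at h2
    have h3 := hgi (v n) h2.1 j
    rw [h2.2] at h3
    exact h3
  have hne : ∀ n n', n < n' → n' < d → v n ≠ v n' := by
    intro n n' h2 h3 h4
    obtain ⟨t, ht, htv⟩ := hmem n (h2.trans h3) ⟨0, hN⟩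
    have h5 := hv2 n n' h2 h3 _ ⟨⟨0, hN⟩, rfl⟩ t ht t ht htv (h4 ▸ htv)
    exact lt_irrefl _ h5
  obtain ⟨S, W, hpat⟩ := hSEG N d V E hE (fun n => P (finProdFinEquiv (g, n)))
    (fun n => len (finProdFinEquiv (g, n))) (fun n => Vt (v n)) (fun j => hP.pth _)
    (fun j j' hjj s hs t ht => hP.dj _ _ (fun h => hjj
      (Prod.mk.inj (finProdFinEquiv.injective h)).2) s hs t ht)
    (fun n _ => hcn _)
    (fun n hn n' hn' hnn => hdj _ _ (by
      rcases Nat.lt_or_gt_of_ne hnn with h | h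
      · exact hne n n' h hn'
      · exact (hne n' n h hn).symm))
    hmem
    (fun n n' h2 h3 j s hs t ht h4 h5 => hv2 n n' h2 h3 _ ⟨j, rfl⟩ s hs t ht h4 h5)
  exact hPAT V E hE S W hpat

end Pool.Agent.H69.GM
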