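import Pool.Agent.H53.GM.Targets2

/-!
# CNI: the output at a guard does not depend on the path
-/

set_option autoImplicit false

namespace Pool.Agent.H69.GM

open Pool.Agent.H68.BP Pool.Agent.H58.SF Pool.Agent.H53.GC Pool.Agent.H53.GR Pool.Agent.H53.GM
open Classical

theorem ag_inl {τ : Sig} {N k L : ℕ} {W : Type} {E : Sy (Fin k × Rg L) (Kd τ N k) W}
    {g : Finset W} {v : Fin k} {x : W} (h : ag E g v = Sum.inl x) : x ∈ g := by
  unfold ag at h
  split_ifs at h with h1
  rw [← Sum.inl.inj h]
  exact h1.choose_spec.1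

theorem pf_CNI : Pool.Agent.H53.GM.T_CNI := by
  intro τ N k L F I a₀ A W Y E f a h hL hE hh g κ hg r r' hr hr'
  by_cases hrr : r = r'
  · rw [hrr]
  have hreg : ∀ x ∈ g, (E.pt x).2 = none ∨ (E.pt x).2 = some none := by
    intro x hx
    have h1 := hr x hx
    have h2 := hr' x hx
    rcases h3 : (E.pt x).2 with _ | (_ | q)
    · exact Or.inl rfl
    · exact Or.inr rfl
    · rw [h3] at h1 h2
      have h4 : q.2 = r := h1
      have h5 : q.2 = r' := h2
      exact absurd (h4.symm.trans h5) hrr
  have hall : (∀ x ∈ g, (E.pt x).2 = none) ∨ ∀ x ∈ g, (E.pt x).2 = some none := by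
    by_contra hc
    push Not at hc
    obtain ⟨⟨x, hx, hx1⟩, y, hy, hy1⟩ := hc
    have hx2 : (E.pt x).2 = some none := (hreg x hx).resolve_left hx1
    have hy2 : (E.pt y).2 = none := (hreg y hy).resolve_right hy1
    rcases hE.ok g κ hg with ⟨h1, -⟩ | ⟨-, h1⟩
    · have h2 : E.pt x ∈ (∅ : Finset (Fin k × Rg L)) := by
        rw [← h1]
        simp only [Finset.mem_image]
        exact ⟨x, hx, rfl⟩
      exact absurd h2 (Finset.notMem_empty _)
    · have h2 := (h1.adj (E.pt x) (by simp only [Finset.mem_image]; exact ⟨x, hx, rfl⟩) (E.pt y)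
        (by simp only [Finset.mem_image]; exact ⟨y, hy, rfl⟩)).1
      rw [hx2, hy2] at h2
      have h3 : L + 1 ≤ 0 + 1 := h2
      omega
  rcases hall with hall | hall
  · have : (fun (c : Fin 6) (v : Fin k) => ux E f a r c (ag E g v)) =
        fun (c : Fin 6) (v : Fin k) => ux E f a r' c (ag E g v) := by
      funext c v
      rcases hag : ag E g v with x | w
      · show f (x, pos (E.pt x).2 r c) = f (x, pos (E.pt x).2 r' c)
        rw [hall x (ag_inl hag)]
        simp [pos]
      · rfl
    rw [this]
  · have key : ∀ r : Fin 3, (fun (c : Fin 6) (v : Fin k) => ux E f a r c (ag E g v)) =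
        pat r (fun v => Sum.elim (fun w => f (w, (0 : Fin 6))) a (ag E g v))
          (fun v => Sum.elim (fun w => f (w, (1 : Fin 6))) a (ag E g v)) := by
      intro r
      funext c
      rw [pat_eq_ite r _ _ c]
      funext v
      have h1 : (if pat r (0 : Fin 6) 1 c = 0
          then (fun v => Sum.elim (fun w => f (w, (0 : Fin 6))) a (ag E g v))
          else (fun v => Sum.elim (fun w => f (w, (1 : Fin 6))) a (ag E g v))) v =
          Sum.elim (fun w => f (w, pat r (0 : Fin 6) 1 c)) a (ag E g v) := by
        rw [pat_eq_ite r (0 : Fin 6) 1 c]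
        by_cases h2 : pat r (0 : Fin 6) 1 c = 0
        · rw [if_pos h2]
          simp
        · rw [if_neg h2]
          simp
      rw [h1]
      rcases hag : ag E g v with x | w
      · show f (x, pos (E.pt x).2 r c) = f (x, pat r (0 : Fin 6) 1 c)
        rw [hall x (ag_inl hag)]
        simp [pos]
      · rfl
    rw [key r, key r', hh r, hh r']

end Pool.Agent.H69.GM
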