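import Pool.Agent.H53.GM.Targets2

/-!
# GAD: simultaneous amalgamation
-/

set_option autoImplicit false

namespace Pool.Agent.H69.GM

open Pool.Agent.H68.BP Pool.Agent.H58.SF Pool.Agent.H53.GC Pool.Agent.H53.GR Pool.Agent.H53.GM
open Classical

theorem pf_GAD (hTPB : Pool.Agent.H53.GM.T_TPB) (hAMG : Pool.Agent.H53.GM.T_AMG) :
    Pool.Agent.H53.GM.T_GAD := by
  intro τ N k F hF R _ W _ M WR hWR MR s b d hM hMR hd hb htp
  have key : ∀ T : Finset R, ∃ (W' : Type) (_ : Finite W') (M' : Str τ W') (j : W → W'),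
      Val F M' ∧ Function.Injective j ∧ IsHom M M' j ∧
      (∀ (J' : Type) (c : J' → W), tp N M' (fun x => j (c x)) = tp N M c) ∧
      ∀ r ∈ T, ∃ g : WR r → W', IsHom (MR r) M' g ∧ ∀ v ∈ s r, g (d r v) = j (b r v) := by
    intro T
    induction T using Finset.induction_on with
    | empty =>
      exact ⟨W, inferInstance, M, fun x => x, hM, fun x y h => h, fun l z hz => hz,
        fun J' c => rfl, fun r hr => absurd hr (Finset.notMem_empty r)⟩
    | insert r T hr ih =>
      obtain ⟨W', hW', M', j, h1, h2, h3, h4, h5⟩ := ih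
      have e1 : tp N M (fun v : s r => b r v.1) = tp N (MR r) (fun v : s r => d r v.1) := by
        refine le_antisymm ?_ ?_
        · exact ((hTPB τ N W (WR r) (Fin k) (Fin k) M (MR r) (b r)).2.2.2 (d r) (s r)).1
            (htp r).subset
        · exact ((hTPB τ N (WR r) W (Fin k) (Fin k) (MR r) M (d r)).2.2.2 (b r) (s r)).1
            (htp r).symm.subset
      have e2 : tp N (MR r) (fun v : s r => d r v.1) =
          tp N M' (fun v : s r => j (b r v.1)) := by
        rw [← e1]
        exact (h4 (s r) (fun v => b r v.1)).symm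
      obtain ⟨P, e, he, hP1, hP2, hP3, hP4, hP5, -⟩ := hAMG τ N F (WR r) W' (s r) (MR r) M'
        (fun v => d r v.1) (fun v => j (b r v.1)) hF
        (fun v v' h => Subtype.ext (hd r h))
        (fun v v' h => Subtype.ext (hb r v.2 v'.2 (h2 h))) (hMR r) h1 e2.subset
      have hfin : Finite (WR r) := hWR r
      refine ⟨WR r ⊕ W', inferInstance, P, fun x => Sum.inr (j x), hP4, ?_, ?_, ?_, ?_⟩
      · exact fun x y h => h2 (Sum.inr_injective h)
      · exact fun l z hz => hP2 l _ (h3 l z hz)
      · intro J' c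
        exact (hP5 J' (fun x => j (c x))).trans (h4 J' c)
      · intro r' hr'
        rcases Finset.mem_insert.1 hr' with rfl | hr'
        · exact ⟨e, hP1, fun v hv => hP3 ⟨v, hv⟩⟩
        · obtain ⟨g, hg1, hg2⟩ := h5 r' hr'
          refine ⟨fun x => Sum.inr (g x), fun l z hz => hP2 l _ (hg1 l z hz), fun v hv => ?_⟩
          show Sum.inr (g (d r' v)) = Sum.inr (j (b r' v))
          rw [hg2 v hv]
  have := Fintype.ofFinite R
  obtain ⟨W', hW', M', j, h1, h2, h3, -, h5⟩ := key Finset.univ
  exact ⟨W', hW', M', j, h1, h2, h3, fun r => h5 r (Finset.mem_univ r)⟩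

end Pool.Agent.H69.GM
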