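import Pool.Agent.H53.GM.Targets2
import Pool.Agent.H68.GC.OLF

/-!
# OLK: Olšák families from cyclic families
-/

set_option autoImplicit false

namespace Pool.Agent.H69.GM

open Pool.Agent.H68.BP Pool.Agent.H58.SF Pool.Agent.H53.GC Pool.Agent.H53.GR Pool.Agent.H53.GM
open Classical

theorem pf_OLK (hSEL : Pool.Agent.H53.GC.T_SEL) : Pool.Agent.H53.GM.T_OLK := by
  intro X 𝓛 _ _ _ N k R l₀ rd hB hcyc
  refine Pool.Agent.H68.GC.pf_OLF hSEL (So N k) X 𝓛 R ?_
  rintro ⟨Z, hZ1, hZ2⟩
  obtain ⟨p, hp1, hp2⟩ := Nat.exists_infinite_primes (Nat.card (So N k → X) + 1)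
  have hpf : Fact p.Prime := ⟨hp2⟩
  obtain ⟨q, hq, hq'⟩ := hcyc p (by omega)
  obtain ⟨x0⟩ := (inferInstance : Nonempty X)
  obtain ⟨D, hD⟩ : ∃ D : So N k → Set X, D = fun e => {y | ∃ x, R l₀ x ∧ x e = y} := ⟨_, rfl⟩
  have hVT : ∀ (l : 𝓛) (x : ZMod p → So N k → X), (∀ i, R l (x i)) → VT R l ∅ x := by
    intro l x hx
    refine ⟨hx, fun e he => ?_⟩
    exact absurd (Finset.empty_ssubset.2 e.2.1) he
  obtain ⟨q1, hq1⟩ : ∃ q1 : So N k → (ZMod p → X) → X,
      q1 = fun e w => if ∀ i, w i ∈ D e then q e w else x0 := ⟨_, rfl⟩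
  have hfam : Fam R (ZMod p) q1 := by
    intro l x hx
    have h1 : (fun e => q1 e (fun i => x i e)) = fun e => q e (fun i => x i e) := by
      funext e
      rw [hq1]
      have h2 : ∀ i, (fun i => x i e) i ∈ D e := by
        intro i
        rw [hD]
        exact ⟨x i, hB.base l _ (hx i), rfl⟩
      exact if_pos h2
    rw [h1]
    exact hq.fam l x (hVT l x hx)
  have hshift : (fun (e : So N k) (w : ZMod p → X) => q1 e (fun i => w (i + 1))) = q1 := by
    funext e w
    rw [hq1]
    show (if ∀ i, w (i + 1) ∈ D e then q e (fun i => w (i + 1)) else x0) =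
      if ∀ i, w i ∈ D e then q e w else x0
    by_cases h1 : ∀ i, w i ∈ D e
    · rw [if_pos h1, if_pos fun i => h1 (i + 1)]
      have h2 : ∀ i, ∃ x, R l₀ x ∧ x e = w i := by
        intro i
        have := h1 i
        rw [hD] at this
        exact this
      choose x hx hxe using h2
      have h3 := hq' x (hVT l₀ x hx) e
      have h4 : (fun i => x (i + 1) e) = fun i => w (i + 1) := funext fun i => hxe (i + 1)
      have h5 : (fun i => x i e) = w := funext fun i => hxe i
      rw [h4, h5] at h3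
      exact h3
    · have h2 : ¬ ∀ i, w (i + 1) ∈ D e := by
        intro h3
        apply h1
        intro i
        have := h3 (i - 1)
        rwa [sub_add_cancel] at this
      rw [if_neg h1, if_neg h2]
  obtain ⟨i, hi⟩ := hZ1 (ZMod p) q1 hfam
  have h1 := hZ2 (ZMod p) (ZMod p) (fun i => i + 1) q1 i i hfam hi (by
    have : (fun (e : So N k) (x : ZMod p → X) => q1 e (fun i => x ((fun i => i + 1) i))) = q1 :=
      hshift
    rw [this]
    exact hi)
  have h2 : (1 : ZMod p) = 0 := by
    have h3 : i + 1 = i := h1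
    calc (1 : ZMod p) = i + 1 - i := by ring
      _ = 0 := by rw [h3, sub_self]
  exact one_ne_zero h2

end Pool.Agent.H69.GM
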